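import Pool.Agent.H38.O2.Main
import Pool.Agent.H71.O2.K1

set_option autoImplicit false

/-!
End game for noncommutative automorphic loops (helper32, note 6889): if `th(a, b)` fixes `b` for all
`a, b` and the inversion fixes only the identity, then all `(y x)(x y)⁻¹` are in the right nucleus.
-/

namespace ALoop.EG97

open Equiv

variable {Q : Type*} {G : Subgroup (Perm Q)} {L : Q → Perm Q} {J : Perm Q} {e : Q}

/-- `a(x, y)` -/
def al (L : Q → Perm Q) (x y : Q) : Perm Q := (L (L x y))⁻¹ * L x * L y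

section K7

variable (h : AL0 G L J e) (hK : ∀ a b, Th L J a b b = b)
include h hK

theorem fixa (a b : Q) : Th L J a b a = a := by
  have h1 := hK (J b) (J a)
  rw [h.Th_inv] at h1
  have h2 : Th L J a b (J a) = J a := by
    rw [Perm.inv_eq_iff_eq] at h1; exact h1.symm
  have h3 := h.fixJ (h.Th_mem a b) (h.Th_e a b) h2
  rwa [h.JJ] at h3

theorem cLa (a b : Q) : Th L J a b * L a = L a * Th L J a b :=
  h.comL (h.Th_mem a b) (h.Th_e a b) (fixa h hK a b)

theorem cLb (a b : Q) : Th L J a b * L b = L b * Th L J a b :=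
  h.comL (h.Th_mem a b) (h.Th_e a b) (hK a b)

theorem cRa (a b : Q) : Th L J a b * Rt L J a = Rt L J a * Th L J a b :=
  h.comR (h.Th_mem a b) (h.Th_e a b) (fixa h hK a b)

theorem cRb (a b : Q) : Th L J a b * Rt L J b = Rt L J b * Th L J a b :=
  h.comR (h.Th_mem a b) (h.Th_e a b) (hK a b)

theorem S1 (a b : Q) : Th L J a (J b) = (Th L J a b)⁻¹ := by
  have h1 := h.K1 a b
  have c1 := cLb h hK a b
  have c2 := cRb h hK a b
  have c3 : Th L J a b * Tx L J b = Tx L J b * Th L J a b := by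
    unfold Tx
    have c4 : Th L J a b * (Rt L J b)⁻¹ = (Rt L J b)⁻¹ * Th L J a b := by
      rw [mul_inv_eq_iff_eq_mul, mul_assoc, c2]; group
    calc Th L J a b * (L b * (Rt L J b)⁻¹) = (Th L J a b * L b) * (Rt L J b)⁻¹ := by group
      _ = L b * (Th L J a b * (Rt L J b)⁻¹) := by rw [c1]; group
      _ = _ := by rw [c4]; group
  rw [c3] at h1
  have h2 := mul_left_cancel h1
  rw [← h2, inv_inv]

theorem S2 (a b : Q) : Th L J (J b) a = Th L J a b := by
  have h1 := h.Th_inv a b
  have h2 := S1 h hK (J b) a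
  rw [h2] at h1
  exact inv_injective h1

theorem S3 (a b : Q) : Th L J b a = (Th L J a b)⁻¹ := by
  have h1 := S2 h hK a (J b)
  rw [h.JJ, S1 h hK a b] at h1
  exact h1

theorem S4 (a b : Q) : Th L J (J a) b = (Th L J a b)⁻¹ := by
  rw [S2 h hK, S3 h hK]

theorem ipR (b : Q) : Rt L J b * Rt L J (J b) = 1 := by
  ext a
  rw [Perm.one_apply]
  have h1 : (L a)⁻¹ * (Rt L J b * Rt L J (J b)) * L a = Rt L J b * Rt L J (J b) := by
    have e1 : (L a)⁻¹ * Rt L J b * L a = Rt L J b * (Th L J a b)⁻¹ := by unfold Th; group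
    have e2 : (L a)⁻¹ * Rt L J (J b) * L a = Rt L J (J b) * (Th L J a (J b))⁻¹ := by
      unfold Th; group
    rw [S1 h hK, inv_inv] at e2
    have c : Th L J a b * Rt L J (J b) = Rt L J (J b) * Th L J a b :=
      h.comR (h.Th_mem a b) (h.Th_e a b) (h.fixJ (h.Th_mem a b) (h.Th_e a b) (hK a b))
    calc (L a)⁻¹ * (Rt L J b * Rt L J (J b)) * L a =
        ((L a)⁻¹ * Rt L J b * L a) * ((L a)⁻¹ * Rt L J (J b) * L a) := by group
      _ = (Rt L J b * (Th L J a b)⁻¹) * (Rt L J (J b) * Th L J a b) := by rw [e1, e2]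
      _ = (Rt L J b * (Th L J a b)⁻¹) * (Th L J a b * Rt L J (J b)) := by rw [c]
      _ = _ := by group
  have h2 : (Rt L J b * Rt L J (J b)) * L a = L a * (Rt L J b * Rt L J (J b)) := by
    calc _ = L a * ((L a)⁻¹ * (Rt L J b * Rt L J (J b)) * L a) := by group
      _ = _ := by rw [h1]
  have h3 : (Rt L J b * Rt L J (J b)) e = e := by
    rw [Perm.mul_apply, h.Rt_e, h.Rt_app, h.JL]
  have h4 := congrArg (fun f : Perm Q => f e) h2
  simp only [Perm.mul_apply] at h4 h3 ⊢
  rw [h.Le, h3, h.Le] at h4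
  exact h4

theorem ipR' (b : Q) : Rt L J (J b) = (Rt L J b)⁻¹ :=
  eq_inv_of_mul_eq_one_right (ipR h hK b)

theorem ipL (b : Q) : L (J b) = (L b)⁻¹ := by
  have h1 := h.JRJ b
  have h2 := h.JRJ (J b)
  rw [h.JJ, ipR' h hK b] at h2
  rw [← h1, ← h2, mul_inv_rev, mul_inv_rev, inv_inv, h.Jinv, mul_assoc]

omit hK in
theorem al_mem (x y : Q) : al L x y ∈ G :=
  G.mul_mem (G.mul_mem (G.inv_mem (h.memL _)) (h.memL _)) (h.memL _)

omit hK in
theorem al_e (x y : Q) : al L x y e = e := by
  unfold al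
  simp only [Perm.mul_apply]
  rw [h.Le, Perm.inv_eq_iff_eq, h.Le]

omit hK in
theorem al_x (x y : Q) : al L x y x = x := by
  unfold al
  simp only [Perm.mul_apply]
  have h1 := congrArg (fun f : Perm Q => f y) (h.flex x)
  simp only [Perm.mul_apply] at h1
  rw [h.Rt_app, h.Rt_app] at h1
  rw [h1, inv_apply']

theorem be_eq (x y : Q) : al L (J y) (J x) = L (L x y) * (L y)⁻¹ * (L x)⁻¹ := by
  unfold al
  rw [← h.aaip, ipL h hK (L x y), ipL h hK y, ipL h hK x, inv_inv]

theorem be_xy (x y : Q) : al L (J y) (J x) (L x y) = L x y := by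
  rw [be_eq h hK]
  simp only [Perm.mul_apply]
  have h1 : (L y)⁻¹ y = e := by rw [Perm.inv_eq_iff_eq, h.Le]
  rw [inv_apply', h1, h.Le]

theorem be_y (x y : Q) : al L (J y) (J x) y = y := by
  have h1 := h.fixJ (al_mem h (J y) (J x)) (al_e h (J y) (J x)) (al_x h (J y) (J x))
  rwa [h.JJ] at h1

theorem be_x (x y : Q) : al L (J y) (J x) x = x := by
  have c := h.comR (al_mem h (J y) (J x)) (al_e h (J y) (J x)) (be_y h hK x y)
  have h1 := congrArg (fun f : Perm Q => f x) c
  simp only [Perm.mul_apply] at h1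
  rw [h.Rt_app y x, be_xy h hK] at h1
  apply (Rt L J y).injective
  rw [← h1, h.Rt_app]

theorem al_y (x y : Q) : al L x y y = y := by
  have h1 := be_x h hK (J y) (J x)
  rw [h.JJ, h.JJ] at h1
  have h2 := h.fixJ (al_mem h x y) (al_e h x y) h1
  rwa [h.JJ] at h2

theorem al_xy (x y : Q) : al L x y (L x y) = L x y := by
  have c := h.comL (al_mem h x y) (al_e h x y) (al_x h x y)
  have h1 := congrArg (fun f : Perm Q => f y) c
  simp only [Perm.mul_apply] at h1
  rw [h1, al_y h hK]

theorem al_inv (x y : Q) : al L (J y) (J x) = (al L x y)⁻¹ := by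
  have c := h.comL (al_mem h x y) (al_e h x y) (al_xy h hK x y)
  rw [be_eq h hK]
  have h1 : L (L x y) * (L y)⁻¹ * (L x)⁻¹ = L (L x y) * (al L x y)⁻¹ * (L (L x y))⁻¹ := by
    unfold al; group
  rw [h1]
  calc L (L x y) * (al L x y)⁻¹ * (L (L x y))⁻¹ =
      (al L x y)⁻¹ * (al L x y * L (L x y)) * (al L x y)⁻¹ * (L (L x y))⁻¹ := by group
    _ = (al L x y)⁻¹ * (L (L x y) * al L x y) * (al L x y)⁻¹ * (L (L x y))⁻¹ := by rw [c]
    _ = _ := by group

theorem al_R (x y : Q) : Rt L J (L x y) = al L x y * Rt L J y * Rt L J x := by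
  have h1 := h.comJ _ (al_mem h x y) (al_e h x y)
  have h2 : al L x y = J * al L x y * J := by rw [← h1, mul_assoc, h.JJ1, mul_one]
  have h3 : J * al L x y * J = Rt L J (L x y) * (Rt L J x)⁻¹ * (Rt L J y)⁻¹ := by
    unfold al
    have e1 : J * ((L (L x y))⁻¹ * L x * L y) * J =
        (J * L (L x y) * J)⁻¹ * (J * L x * J) * (J * L y * J) := by
      simp only [mul_inv_rev, h.Jinv]
      calc J * ((L (L x y))⁻¹ * L x * L y) * J =
          J * (L (L x y))⁻¹ * 1 * L x * 1 * L y * J := by group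
        _ = J * (L (L x y))⁻¹ * (J * J) * L x * (J * J) * L y * J := by rw [h.JJ1]
        _ = _ := by group
    rw [e1, h.JLJ, h.JLJ, h.JLJ, ipR' h hK (L x y), ipR' h hK x, ipR' h hK y, inv_inv]
  rw [h2, h3]; group

theorem two (x y z : Q) : Th L J x z (L x y) = al L y z (L x y) := by
  apply (Rt L J z).injective
  have e1 : L x * Rt L J z = Rt L J z * L x * Th L J x z := by unfold Th; group
  have c1 := cLa h hK x z
  have c2 := h.comR (al_mem h y z) (al_e h y z) (al_y h hK y z)
  have a1 : L x (L y z) = Rt L J z (Th L J x z (L x y)) := by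
    have h1 := congrArg (fun f : Perm Q => f y) e1
    have h2 := congrArg (fun f : Perm Q => f y) c1
    simp only [Perm.mul_apply] at h1 h2
    rw [h.Rt_app z y, ← h2] at h1
    exact h1
  have a2 : L x (L y z) = Rt L J z (al L y z (L x y)) := by
    have h1 := congrArg (fun f : Perm Q => f x) (al_R h hK y z)
    have h2 := congrArg (fun f : Perm Q => f (L x y)) c2
    simp only [Perm.mul_apply] at h1 h2
    rw [h.Rt_app (L y z) x, h.Rt_app y x] at h1
    rw [h1, h2]
  rw [← a1, a2]

theorem two' (w y z : Q) : al L y z w = Th L J (L w (J y)) z w := by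
  have h1 : L (L w (J y)) y = w := by
    have h3 := congrArg (fun f : Perm Q => f w) (ipR h hK y)
    simp only [Perm.mul_apply, Perm.one_apply] at h3
    rw [h.Rt_app (J y) w, h.Rt_app] at h3
    exact h3
  have h2 := two h hK (L w (J y)) y z
  rw [h1] at h2
  exact h2.symm

theorem threeA (w y z : Q) : (al L y z)⁻¹ w = Th L J y (L w z) w := by
  have h1 := two' h hK w (J z) (J y)
  rw [al_inv h hK, h.JJ, S1 h hK, ← S3 h hK] at h1
  exact h1

theorem threeB (w y z : Q) : (al L y z)⁻¹ w = Th L J y (L (J w) z) w := by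
  obtain ⟨x, hx⟩ : ∃ x, x = L (J z) w := ⟨_, rfl⟩
  have hw : L z x = w := by
    rw [hx, ipL h hK, apply_inv']
  have c1 := h.comL (al_mem h y z) (al_e h y z) (al_y h hK y z)
  have a1 : L (L y z) x = L y ((al L y z)⁻¹ w) := by
    have h1 : L (L y z) = L y * ((al L y z)⁻¹ * L z) := by
      have h2 : L (L y z) = L y * L z * (al L y z)⁻¹ := by unfold al; group
      rw [h2, mul_assoc]
      congr 1
      calc L z * (al L y z)⁻¹ = (al L y z)⁻¹ * (al L y z * L z) * (al L y z)⁻¹ := by group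
        _ = (al L y z)⁻¹ * (L z * al L y z) * (al L y z)⁻¹ := by rw [c1]
        _ = _ := by group
    have h3 := congrArg (fun f : Perm Q => f x) h1
    simp only [Perm.mul_apply] at h3
    rw [hw] at h3
    exact h3
  have c2 := cRb h hK y x
  have a2 : L (L y z) x = L y ((Th L J y x)⁻¹ w) := by
    have h1 : Rt L J x * L y = L y * ((Th L J y x)⁻¹ * Rt L J x) := by
      have h2 : Rt L J x * L y = L y * (Rt L J x * (Th L J y x)⁻¹) := by unfold Th; group
      rw [h2]
      congr 1
      calc Rt L J x * (Th L J y x)⁻¹ =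
          (Th L J y x)⁻¹ * (Th L J y x * Rt L J x) * (Th L J y x)⁻¹ := by group
        _ = (Th L J y x)⁻¹ * (Rt L J x * Th L J y x) * (Th L J y x)⁻¹ := by rw [c2]
        _ = _ := by group
    have h3 := congrArg (fun f : Perm Q => f z) h1
    simp only [Perm.mul_apply] at h3
    rw [h.Rt_app, h.Rt_app, hw] at h3
    exact h3
  have h5 : (al L y z)⁻¹ w = (Th L J y x)⁻¹ w := by
    apply (L y).injective
    rw [← a1, a2]
  have h6 : J x = L (J w) z := by rw [hx, h.aaip, h.JJ]
  rw [h5, ← S1 h hK, h6]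

theorem threeC (w y z : Q) : Th L J y (L w (L w z)) w = Th L J y z w := by
  rw [← threeA h hK, threeB h hK, ipL h hK, inv_apply']

theorem threeD (w y z : Q) (m : ℕ) : Th L J y ((L w ^ (2 * m)) z) w = Th L J y z w := by
  induction m with
  | zero => simp
  | succ m ih =>
    have h1 : L w ^ (2 * (m + 1)) = L w * (L w * L w ^ (2 * m)) := by
      rw [show 2 * (m + 1) = 2 * m + 1 + 1 from by ring, pow_succ', pow_succ']
    rw [h1, Perm.mul_apply, Perm.mul_apply, threeC h hK, ih]

theorem pw (w : Q) (k : ℕ) : L ((L w ^ k) e) = L w ^ k := by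
  induction k with
  | zero => simp [h.Le1]
  | succ k ih =>
    obtain ⟨c, hc⟩ : ∃ c, c = (L w ^ k) e := ⟨_, rfl⟩
    rw [← hc] at ih
    have h1 : al L c w = 1 := by
      ext v
      rw [two' h hK, Perm.one_apply]
      obtain ⟨x, hx⟩ : ∃ x, x = L v (J c) := ⟨_, rfl⟩
      rw [← hx]
      have hv : L x c = v := by
        have h3 := congrArg (fun f : Perm Q => f v) (ipR h hK c)
        simp only [Perm.mul_apply, Perm.one_apply] at h3
        rw [h.Rt_app (J c) v, h.Rt_app] at h3
        rw [hx, h3]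
      have h4 : Th L J x w c = c := by
        have h5 : Th L J x w * L w ^ k = L w ^ k * Th L J x w :=
          ((show Commute (Th L J x w) (L w) from cLb h hK x w).pow_right k)
        have h6 := congrArg (fun f : Perm Q => f e) h5
        simp only [Perm.mul_apply] at h6
        rw [h.Th_e, ← hc] at h6
        exact h6
      have h7 := congrArg (fun f : Perm Q => f c) (cLa h hK x w)
      simp only [Perm.mul_apply] at h7
      rw [h4, hv] at h7
      exact h7
    have h8 : L (L c w) = L c * L w := by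
      unfold al at h1
      rw [mul_assoc, inv_mul_eq_one] at h1
      exact h1
    have h9 : (L w ^ (k + 1)) e = L c w := by
      rw [pow_succ, Perm.mul_apply, h.Le, ih]
    rw [h9, h8, ih, pow_succ]

theorem oddL [Finite Q] (hfix : ∀ x, J x = x → x = e) (w : Q) :
    ∃ n : ℕ, L w ^ (2 * n + 1) = 1 := by
  rcases Nat.even_or_odd (orderOf (L w)) with hev | ⟨n, hn⟩
  · exfalso
    obtain ⟨m, hm⟩ := hev
    obtain ⟨c, hc⟩ : ∃ c, c = (L w ^ m) e := ⟨_, rfl⟩
    have h1 : L c = L w ^ m := by rw [hc, pw h hK]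
    have h2 : L c * L c = 1 := by rw [h1, ← pow_add, ← hm, pow_orderOf_eq_one]
    have h3 : L (J c) = L c := by
      rw [ipL h hK, inv_eq_of_mul_eq_one_left h2]
    have h4 : J c = c := by
      have h5 : L (J c) e = L c e := by rw [h3]
      rw [h.Le, h.Le] at h5
      exact h5
    have h6 := hfix c h4
    have h7 : L w ^ m = 1 := by rw [← h1, h6, h.Le1]
    have h8 : 0 < orderOf (L w) := orderOf_pos _
    have h9 := Nat.le_of_dvd (by omega) (orderOf_dvd_of_pow_eq_one h7)
    omega
  · exact ⟨n, by rw [← hn, pow_orderOf_eq_one]⟩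

theorem three [Finite Q] (hfix : ∀ x, J x = x → x = e) (w y z : Q) :
    Th L J y (L w z) w = Th L J y z w := by
  obtain ⟨n, hn⟩ := oddL h hK hfix w
  have h1 := threeD h hK w y z (n + 1)
  have h2 : L w ^ (2 * (n + 1)) = L w := by
    rw [show 2 * (n + 1) = 2 * n + 1 + 1 from by ring, pow_succ, hn, one_mul]
  rwa [h2] at h1

theorem four [Finite Q] (hfix : ∀ x, J x = x → x = e) (y z : Q) : al L y z = Th L J z y := by
  ext w
  rw [two' h hK, ← S2 h hK, three h hK hfix, S2 h hK, S2 h hK]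

theorem Lmul [Finite Q] (hfix : ∀ x, J x = x → x = e) (y z : Q) :
    L (L y z) = L y * L z * Th L J y z := by
  have h1 := four h hK hfix y z
  rw [S3 h hK z y, ← h1]
  unfold al; group

theorem mouf [Finite Q] (hfix : ∀ x, J x = x → x = e) (x p : Q) :
    L (L x p) * Rt L J x = L x * Rt L J x * L p := by
  have h1 : L p * Rt L J x = Rt L J x * L p * Th L J p x := by unfold Th; group
  rw [Lmul h hK hfix]
  calc L x * L p * Th L J x p * Rt L J x = L x * L p * (Th L J x p * Rt L J x) := by group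
    _ = L x * (L p * Rt L J x) * Th L J x p := by rw [cRa h hK x p]; group
    _ = L x * (Rt L J x * L p * Th L J p x) * Th L J x p := by rw [h1]
    _ = L x * (Rt L J x * L p * (Th L J x p)⁻¹) * Th L J x p := by rw [S3 h hK x p]
    _ = _ := by group

theorem moufP [Finite Q] (hfix : ∀ x, J x = x → x = e) (x p q : Q) :
    L (L x p) (Rt L J x q) = L x (Rt L J x (L p q)) := by
  have h1 := congrArg (fun f : Perm Q => f q) (mouf h hK hfix x p)
  simpa only [Perm.mul_apply] using h1

/-- `(y x)(x y)⁻¹` is in the right nucleus -/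
theorem nuc [Finite Q] (hfix : ∀ x, J x = x → x = e) (x y : Q) :
    ∃ c, L c (L x y) = L y x ∧ ∀ p q, L (L p q) c = L p (L q c) := by
  obtain ⟨V, hV⟩ : ∃ V : Perm Q, V = (Rt L J (L x y))⁻¹ * Rt L J x * Rt L J y := ⟨_, rfl⟩
  obtain ⟨A, hA⟩ : ∃ A : Perm Q, A = al L x y := ⟨_, rfl⟩
  have hAG : A ∈ G := by rw [hA]; exact al_mem h x y
  have hAe : A e = e := by rw [hA]; exact al_e h x y
  have hR : ∀ q, Rt L J (L x y) (V q) = Rt L J x (Rt L J y q) := by
    intro q
    rw [hV]
    simp only [Perm.mul_apply, apply_inv']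
  have hL : ∀ p, L (L x y) (A p) = L x (L y p) := by
    intro p
    rw [hA]
    unfold al
    simp only [Perm.mul_apply, apply_inv']
  have h1 : ∀ p q, L (L x y) (Rt L J (L x y) (L (A p) (V q))) =
      L x (Rt L J x (L y (Rt L J y (L p q)))) := by
    intro p q
    rw [← moufP h hK hfix, hR, hL, moufP h hK hfix, moufP h hK hfix]
  have h2 : ∀ q, L (L x y) (Rt L J (L x y) (V q)) = L x (Rt L J x (L y (Rt L J y q))) := by
    intro q
    have h3 := h1 e q
    rw [hAe, h.Le1, Perm.one_apply, Perm.one_apply] at h3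
    exact h3
  have h4 : ∀ p q, V (L p q) = L (A p) (V q) := by
    intro p q
    have h5 := h2 (L p q)
    rw [← h1 p q] at h5
    exact (Rt L J (L x y)).injective ((L (L x y)).injective h5)
  have h5 : ∀ p, V p = L (A p) (V e) := by
    intro p
    have h6 := h4 p e
    rwa [h.Le] at h6
  have h7 : ∀ p q, A (L p q) = L (A p) (A q) := by
    intro p q
    have h8 := h.equi A hAG hAe p
    rw [← h8]
    simp only [Perm.mul_apply, inv_apply']
  refine ⟨V e, ?_, ?_⟩
  · have h8 := hR e
    rw [h.Rt_app (L x y) (V e), h.Rt_e, h.Rt_app] at h8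
    exact h8
  · intro p q
    have h8 := h4 (A⁻¹ p) (A⁻¹ q)
    rw [h5 (L (A⁻¹ p) (A⁻¹ q)), h7, h5 (A⁻¹ q), apply_inv', apply_inv'] at h8
    exact h8

end K7

/-- the end game for simple automorphic loops -/
theorem assoc [Finite Q] (h : AL G L J e) (hfix : ∀ x, J x = x → x = e)
    (hK : ∀ a b, Th L J a b b = b) : Assoc L := by
  have h0 := h.al0
  -- the right nucleus
  let X : Q → Prop := fun c => ∀ p q, L (L p q) c = L p (L q c)
  have hX1 : X e := by
    intro p q
    rw [h.Le, h.Le]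
  have hXm : ∀ c d, X c → X d → X (L c d) := by
    intro c d hc hd p q
    rw [← hd (L p q) c, hc p q, hd p (L q c), hd q c]
  -- `c ∈ X` iff `R c` commutes with all `L p`
  have hXR : ∀ c, X c → ∀ p, Rt L J c * L p = L p * Rt L J c := by
    intro c hc p
    ext q
    simp only [Perm.mul_apply]
    rw [h0.Rt_app, h0.Rt_app]
    exact hc p q
  have hRX : ∀ c, (∀ p, Rt L J c * L p = L p * Rt L J c) → X c := by
    intro c hc p q
    have h1 := congrArg (fun f : Perm Q => f q) (hc p)
    simp only [Perm.mul_apply] at h1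
    rw [h0.Rt_app, h0.Rt_app] at h1
    exact h1
  have hXJ : ∀ c, X c → X (J c) := by
    intro c hc
    apply hRX
    intro p
    rw [ipR' h0 hK]
    have h1 := hXR c hc p
    calc (Rt L J c)⁻¹ * L p = (Rt L J c)⁻¹ * (L p * Rt L J c) * (Rt L J c)⁻¹ := by group
      _ = (Rt L J c)⁻¹ * (Rt L J c * L p) * (Rt L J c)⁻¹ := by rw [h1]
      _ = _ := by group
  have hXk : ∀ k ∈ G, k e = e → ∀ c, X c → X (k c) := by
    intro k hk hke c hc p q
    have aut : ∀ x y, k (L x y) = L (k x) (k y) := by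
      intro x y
      have h8 := h.equi k hk hke x
      rw [← h8]
      simp only [Perm.mul_apply, inv_apply']
    have h1 := congrArg k (hc (k⁻¹ p) (k⁻¹ q))
    rw [aut, aut, aut, aut, apply_inv', apply_inv'] at h1
    exact h1
  have key := h.prim (fun a b => ∃ c, X c ∧ L a c = b) ?_ ?_
  · rcases key with k1 | k1
    · -- commutative
      have hc : ∀ x y, L x y = L y x := by
        intro x y
        obtain ⟨c, h1, h2⟩ := nuc h0 hK hfix x y
        have h3 := k1 e c ⟨c, h2, by rw [h0.Le1, Perm.one_apply]⟩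
        rw [← h3, h0.Le1, Perm.one_apply] at h1
        exact h1
      refine h.comm_assoc ?_
      intro q
      rw [h0.JLJ]
      ext y
      rw [h0.Rt_app, hc]
    · intro x y z
      obtain ⟨c, h1, h2⟩ := k1 e z
      rw [h0.Le1, Perm.one_apply] at h2
      rw [← h2]
      exact h1 x y
  · refine ⟨fun a => ⟨e, hX1, h.Le a⟩, ?_, ?_⟩
    · rintro a b ⟨c, hc, rfl⟩
      refine ⟨J c, hXJ c hc, ?_⟩
      have h3 := congrArg (fun f : Perm Q => f a) (ipR h0 hK (J c))
      simp only [Perm.mul_apply, Perm.one_apply] at h3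
      rw [h0.JJ, h0.Rt_app c a, h0.Rt_app] at h3
      exact h3
    · rintro a b d ⟨c, hc, rfl⟩ ⟨c', hc', rfl⟩
      exact ⟨L c c', hXm c c' hc hc', (hc' a c).symm⟩
  · rintro g hg a b ⟨c, hc, rfl⟩
    obtain ⟨k, hk⟩ : ∃ k, k = (L (g e))⁻¹ * g := ⟨_, rfl⟩
    have hkG : k ∈ G := by rw [hk]; exact G.mul_mem (G.inv_mem (h.memL _)) hg
    have hke : k e = e := by
      rw [hk, Perm.mul_apply, Perm.inv_eq_iff_eq, h.Le]
    have hgk : ∀ y, g y = L (g e) (k y) := by
      intro y
      rw [hk, Perm.mul_apply, apply_inv']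
    refine ⟨k c, hXk k hkG hke c hc, ?_⟩
    have aut : k (L a c) = L (k a) (k c) := by
      have h8 := h.equi k hkG hke a
      rw [← h8]
      simp only [Perm.mul_apply, inv_apply']
    rw [hgk a, hgk (L a c), aut]
    exact hXk k hkG hke c hc (g e) (k a)

end ALoop.EG97
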